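import Pool.Agent.H525R3.GMain

/-!
# A ground model that is not definable from well-orderable parameters

The definitions used in the statement are in `Pool.Agent.H525R3.GDef` (`IsOrdinal`, `HerWO`),
`Pool.Agent.H525R3.Lang` (transitivity, notions of forcing, generic filters, values of names,
forcing extensions), `Pool.Agent.H635R2.Statement` (`ZF`) and `Pool.Agent.Helper672.SIK.Plain`
(the language `LSet`, `Mem`, `Zermelo`, `IsOrdPair`).

The example: `V` is the symmetric model generated over a ground model by the set of infinitely
many Cohen reals `a 1, a 2, ...`, without their enumeration, and `N` is `V[a 0]` for a Cohen real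
`a 0` over `V`. There is an elementary embedding `j` of `V` into `N` that fixes the elements of the
ground model, so all ordinals. By induction it fixes every set of `V` whose transitive closure can
be well-ordered in `V`. If a formula with such parameters defined `V` in `N`, then `V` would
satisfy this formula for all subsets of the notion of forcing, since `j` fixes those subsets that
are in `V`; so `N` would, too, and the generic filter would be in `V`.
-/

namespace Pool.Agent.Results.MP_3ade05_lc.NoWellOrderableParameter

open FirstOrder FirstOrder.Language
open Pool.Agent.Helper672.Plain (LSet)
open Pool.Agent.H635Amen (ZF)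
open Pool.Agent.H525Emb (IsTrans IsForcingExtension)
open Pool.Agent.H525Ground (HerWO)

universe u

/-- If there is a model of ZF, then there are a model `N` of ZF and a transitive class model `V`
of ZF such that `N` is a proper set-forcing extension of `V` and `V` is not definable in `N` with
parameters in `V` whose transitive closure can be well-ordered in `V`. -/
theorem result (M : Type u) [LSet.Structure M] (hM : ZF M) :
    ∃ (N : Type u) (_ : LSet.Structure N) (V : LSet.Substructure N),
      ZF N ∧ ZF V ∧ IsTrans V ∧ V ≠ ⊤ ∧ IsForcingExtension V ∧
      ¬ {p : N | HerWO V p}.Definable₁ LSet {x : N | x ∈ V} :=
  Pool.Agent.H525Ground.ground M hM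

end Pool.Agent.Results.MP_3ade05_lc.NoWellOrderableParameter
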